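import Pool.Agent.MP_fcd29e_an.H11.CS

/-!
The projection of a flat section is almost constant.
-/

set_option autoImplicit false

open Complex Set Filter Topology Metric Pool.Agent.MP_fcd29e_an.H11

namespace Pool.Agent.MP_fcd29e_an.H50

namespace DV

variable {ι : Type} [Fintype ι]

/-- A Laurent polynomial of endomorphisms. -/
noncomputable def Rg (A₀ A A' : EV ι) (s : ℂ) : EV ι := A₀ + s • A + s⁻¹ • A'

/-- The projection onto the third block. -/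
noncomputable def pr : V ι →L[ℂ] (ι → ℂ) :=
  (ContinuousLinearMap.snd ℂ (ι → ℂ) (ι → ℂ)).comp (ContinuousLinearMap.snd ℂ ℂ _)

theorem norm_pr (v : V ι) : ‖v.2.2‖ ≤ ‖v‖ := (norm_snd_le v.2).trans (norm_snd_le v)

theorem an_app {M : ℂ → EV ι} {u : ℂ → V ι} {s : ℂ} (hM : AnalyticAt ℂ M s)
    (hu : AnalyticAt ℂ u s) : AnalyticAt ℂ (fun y => M y (u y)) s :=
  ((ContinuousLinearMap.id ℂ (EV ι)).analyticAt_bilinear (M s, u s)).comp₂ hM hu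

theorem an_pr {u : ℂ → V ι} {s : ℂ} (hu : AnalyticAt ℂ u s) :
    AnalyticAt ℂ (fun y => (u y).2.2) s :=
  ((pr (ι := ι)).analyticAt (u s)).comp hu

theorem deriv_pr {u : ℂ → V ι} {u' : V ι} {s : ℂ} (hu : HasDerivAt u u' s) :
    ‖deriv (fun y => (u y).2.2) s‖ ≤ ‖u'‖ := by
  have h : HasDerivAt (fun y => (u y).2.2) (pr u') s :=
    (pr (ι := ι)).hasFDerivAt.comp_hasDerivAt s hu
  rw [h.deriv]
  exact norm_pr u'

theorem cauchy {F : ℂ → EV ι} {t : ℂ} {R ε : ℝ} (hR : 0 < R)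
    (hF : ∀ z ∈ closedBall t R, AnalyticAt ℂ F z ∧ ‖F z - 1‖ ≤ ε) : ‖deriv F t‖ ≤ ε / R := by
  have hd : DifferentiableOn ℂ (fun z => F z - 1) (closedBall t R) := fun z hz =>
    ((hF z hz).1.differentiableAt.sub_const 1).differentiableWithinAt
  have h := Complex.norm_deriv_le_of_forall_mem_sphere_norm_le hR
    (hd.diffContOnCl_ball subset_rfl) fun z hz => (hF z (sphere_subset_closedBall hz)).2
  rwa [deriv_sub_const] at h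

theorem core {F : ℂ → EV ι} (A₀ A A' : EV ι) {g h : ℂ → ℂ} {s : ℂ} (v : V ι)
    (hF : AnalyticAt ℂ F (h s)) (hg : AnalyticAt ℂ g s) (hh : AnalyticAt ℂ h s) (g0 : g s ≠ 0) :
    AnalyticAt ℂ (fun y => (F (h y) (Rg A₀ A A' (g y) v)).2.2) s ∧
    ‖deriv (fun y => (F (h y) (Rg A₀ A A' (g y) v)).2.2) s‖ ≤
      ‖deriv h s‖ * ‖deriv F (h s)‖ * ‖Rg A₀ A A' (g s) v‖ +
        ‖F (h s)‖ * (‖deriv g s‖ * (‖A‖ + ‖A'‖ / ‖g s‖ ^ 2) * ‖v‖) := by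
  have hFh : AnalyticAt ℂ (fun y => F (h y)) s := hF.comp hh
  have hR : AnalyticAt ℂ (fun y => Rg A₀ A A' (g y)) s :=
    (analyticAt_const.add (hg.smul analyticAt_const)).add ((hg.inv g0).smul analyticAt_const)
  refine ⟨an_pr (an_app hFh (an_app hR analyticAt_const)), ?_⟩
  have d1 : HasDerivAt (fun y => F (h y)) (deriv h s • deriv F (h s)) s :=
    hF.differentiableAt.hasDerivAt.scomp s hh.differentiableAt.hasDerivAt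
  have dg := hg.differentiableAt.hasDerivAt
  have d2 : HasDerivAt (fun y => Rg A₀ A A' (g y))
      (deriv g s • A + (-deriv g s / g s ^ 2) • A') s :=
    ((dg.smul_const A).const_add A₀).add ((dg.inv g0).smul_const A')
  have d3 : HasDerivAt (fun y => Rg A₀ A A' (g y) v)
      ((deriv g s • A + (-deriv g s / g s ^ 2) • A') v) s := by
    simpa using d2.clm_apply (hasDerivAt_const s v)
  refine (deriv_pr (d1.clm_apply d3)).trans ((norm_add_le _ _).trans (add_le_add ?_ ?_))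
  · refine (ContinuousLinearMap.le_opNorm _ _).trans ?_
    rw [norm_smul]
  · refine (ContinuousLinearMap.le_opNorm _ _).trans (mul_le_mul_of_nonneg_left ?_ (norm_nonneg _))
    refine (ContinuousLinearMap.le_opNorm _ _).trans (mul_le_mul_of_nonneg_right ?_ (norm_nonneg _))
    refine (norm_add_le _ _).trans (le_of_eq ?_)
    rw [norm_smul, norm_smul, norm_div, norm_neg, norm_pow]
    ring

theorem Rg_sub {A₀ A A' : EV ι} (hs : A₀ + A + A' = 1) {K η σ : ℝ} (hA : ‖A‖ ≤ K)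
    (hA' : ‖A'‖ ≤ K) (hη : η ≤ 1 / 2) (hσ : |σ - 1| ≤ η) :
    ‖Rg A₀ A A' σ - 1‖ ≤ 3 * η * K := by
  have e : Rg A₀ A A' σ - 1 = ((σ - 1 : ℝ) : ℂ) • A + ((σ⁻¹ - 1 : ℝ) : ℂ) • A' := by
    rw [← hs, Rg]
    push_cast
    module
  have h1 := abs_le.1 hσ
  have hp : 0 < σ := by linarith [h1.1]
  have h2 : |σ⁻¹ - 1| ≤ 2 * η := by
    have : σ⁻¹ - 1 = -(σ - 1) / σ := by field_simp; ring
    rw [this, abs_div, abs_neg, abs_of_pos hp, div_le_iff₀ hp]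
    have h0 : 0 ≤ η := (abs_nonneg _).trans hσ
    nlinarith [h1.1]
  have h0 : 0 ≤ η := (abs_nonneg _).trans hσ
  rw [e]
  refine (norm_add_le _ _).trans ?_
  rw [norm_smul, norm_smul, Complex.norm_real, Complex.norm_real, Real.norm_eq_abs,
    Real.norm_eq_abs]
  have a1 := mul_le_mul hσ hA (norm_nonneg _) h0
  have a2 := mul_le_mul h2 hA' (norm_nonneg _) (by linarith)
  linarith

theorem nsq_add_le (p q : ι → ℂ) : nsq (p + q) ≤ 2 * nsq p + 2 * nsq q := by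
  unfold nsq
  rw [Finset.mul_sum, Finset.mul_sum, ← Finset.sum_add_distrib]
  refine Finset.sum_le_sum fun k _ => ?_
  have h := norm_add_le (p k) (q k)
  have h0 := norm_nonneg (p k + q k)
  rw [Pi.add_apply]
  nlinarith [sq_nonneg (‖p k‖ - ‖q k‖), norm_nonneg (p k), norm_nonneg (q k)]

theorem unit_vec (hGR : SGR) {z : V ι} (hz : z ∈ cone ι) (h1 : z.1 = 1) :
    ‖z‖ = 1 ∧ nsq z.2.2 = 1 := by
  refine ⟨by rw [(hGR.cn ι z hz).2.1, h1, one_re], ?_⟩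
  obtain ⟨a, ξ, -, hξ, rfl⟩ := (hGR.mem ι z).1 hz
  have h1' : (a : ℂ) = 1 := h1
  have : a = 1 := by exact_mod_cast h1'
  rw [this] at hξ
  simpa using hξ

theorem val (hGR : SGR) {z u : V ι} (hz : z ∈ cone ι) (h1 : z.1 = 1) {δ : ℝ}
    (hδ : Fintype.card ι * δ ^ 2 ≤ 1 / 4) (hu : ‖u - z‖ ≤ δ) :
    1 / 4 ≤ nsq u.2.2 ∧ nsq u.2.2 ≤ 4 := by
  have hn := (unit_vec hGR hz h1).2
  have key : ∀ w : V ι, ‖w‖ ≤ δ → nsq w.2.2 ≤ 1 / 4 := by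
    intro w hw
    refine (hGR.nrm ι w.2.2 0).2.2.1.trans (le_trans ?_ hδ)
    exact mul_le_mul_of_nonneg_left
      (pow_le_pow_left₀ (norm_nonneg _) ((norm_pr w).trans hw) 2) (Nat.cast_nonneg _)
  have a1 := nsq_add_le z.2.2 (u - z).2.2
  have a2 := nsq_add_le u.2.2 (z - u).2.2
  have b1 := key _ hu
  have b2 := key (z - u) (by rwa [norm_sub_rev])
  have e1 : z.2.2 + (u - z).2.2 = u.2.2 := by simp
  have e2 : u.2.2 + (z - u).2.2 = z.2.2 := by simp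
  rw [e1] at a1
  rw [e2] at a2
  constructor <;> linarith

theorem norm_le_two {M : EV ι} (h : ‖M - 1‖ ≤ 1) : ‖M‖ ≤ 2 := by
  have h1 : ‖(1 : EV ι)‖ ≤ 1 := ContinuousLinearMap.norm_id_le
  have h2 := norm_add_le (M - 1) 1
  rw [sub_add_cancel] at h2
  linarith

theorem valR (hGR : SGR) {z : V ι} (hz : z ∈ cone ι) (h1 : z.1 = 1) {M R : EV ι} {δ : ℝ}
    (hδ1 : δ ≤ 1) (hδ : Fintype.card ι * δ ^ 2 ≤ 1 / 4) (hM : ‖M - 1‖ ≤ δ / 4)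
    (hR : ‖R - 1‖ ≤ δ / 2) :
    1 / 4 ≤ nsq (M (R z)).2.2 ∧ nsq (M (R z)).2.2 ≤ 4 ∧ ‖R z‖ ≤ 2 ∧ ‖M‖ ≤ 2 := by
  have hn := (unit_vec hGR hz h1).1
  have hRz : ‖R z‖ ≤ 2 := by
    refine (R.le_opNorm z).trans ?_
    rw [hn, mul_one]
    exact norm_le_two (by linarith)
  have e : M (R z) - z = (M - 1) (R z) + (R - 1) z := by simp
  have a1 := (M - 1).le_opNorm (R z)
  have a2 := (R - 1).le_opNorm z
  have a3 := mul_le_mul hM hRz (norm_nonneg _) ((norm_nonneg _).trans hM)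
  rw [hn, mul_one] at a2
  have hu : ‖M (R z) - z‖ ≤ δ := by
    rw [e]
    refine (norm_add_le _ _).trans ?_
    linarith
  obtain ⟨v1, v2⟩ := val hGR hz h1 hδ hu
  exact ⟨v1, v2, hRz, norm_le_two (by linarith)⟩

theorem normalise (hGR : SGR) {y : V ι} (hy : y ∈ cone ι) :
    ∃ a : ℝ, 0 < a ∧ (a : ℂ) • y ∈ cone ι ∧ ((a : ℂ) • y).1 = 1 := by
  have hp : 0 < y.1.re := hy.2.2
  obtain ⟨-, -, h3, h4, -⟩ := hGR.cn ι y hy
  refine ⟨(y.1.re)⁻¹, inv_pos.2 hp, h4 _ (inv_pos.2 hp), ?_⟩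
  rw [Prod.smul_fst, smul_eq_mul]
  nth_rewrite 2 [h3]
  rw [← ofReal_mul, inv_mul_cancel₀ hp.ne', ofReal_one]

theorem polar {s : ℂ} (hs : s ≠ 0) : ∃ e : ℂ, ‖e‖ = 1 ∧ s = (‖s‖ : ℝ) * e := by
  have h : ‖s‖ ≠ 0 := norm_ne_zero_iff.2 hs
  have h' : ((‖s‖ : ℝ) : ℂ) ≠ 0 := ofReal_ne_zero.2 h
  refine ⟨s / (‖s‖ : ℝ), ?_, ?_⟩
  · rw [norm_div, Complex.norm_real, norm_norm, div_self h]
  · field_simp

theorem cell (hGR : SGR) {c S : ℝ} {w : ι → ℂ} (hw : Ax c S w) {K δ η ε ϱ : ℝ} {n : ℕ}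
    (hn : 1 ≤ n) (hϱ : 0 < ϱ) (hK : ‖Pp c S w‖ ≤ K ∧ ‖Pm c S w‖ ≤ K ∧ ‖P0 c S w‖ ≤ K)
    (hδ1 : δ ≤ 1) (hδ : Fintype.card ι * δ ^ 2 ≤ 1 / 4) (hη : η ≤ 1 / 2)
    (hηK : 3 * η * K ≤ δ / 2) (hε : ε ≤ δ / 4) (hpow : (1 - η) ^ n < ϱ) {F : ℂ → EV ι} {t₀ : ℂ}
    (hF : ∀ t, ‖F t - 1‖ ≤ ε) (han : ∀ t, ‖t - t₀‖ < 1 / 3 → AnalyticAt ℂ F t)
    {x : V ι} (hx : x ∈ cone ι) {s : ℂ} (h1 : ϱ ≤ ‖s ^ n‖) (h2 : ‖s ^ n‖ < 1 / 4) :
    ∃ a : ℝ, 0 < a ∧ ∀ p : ℂ → ι → ℂ,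
      (p = fun y => (F (t₀ + y ^ n) (rot c S w y ((a : ℂ) • x))).2.2) →
      AnalyticAt ℂ p s ∧ 1 / 4 ≤ nsq (p s) ∧ nsq (p s) ≤ 4 ∧
        ‖deriv p s‖ ≤ (64 * ε + 30 * K ^ 2 / ϱ / n) * ‖(n : ℂ) * s ^ (n - 1)‖ := by
  have hs : s ≠ 0 := by
    rintro rfl
    rw [zero_pow (by omega), norm_zero] at h1
    linarith
  have hρ : 0 < ‖s‖ := norm_pos_iff.2 hs
  rw [norm_pow] at h1
  have h2' := h2
  rw [norm_pow] at h2'
  have hs1 : ‖s‖ ≤ 1 := by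
    by_contra h
    have := one_le_pow₀ (n := n) (not_le.1 h).le
    linarith
  have hs2 : 1 - η < ‖s‖ := lt_of_pow_lt_pow_left₀ n hρ.le (hpow.trans_le h1)
  obtain ⟨e, he, hse⟩ := polar hs
  have he0 : e ≠ 0 := by
    rintro rfl
    simp at he
  obtain ⟨r1, r2⟩ := hGR.rt ι c S w hw
  obtain ⟨a, ha, hz, hz1⟩ := normalise hGR (((r2 e he0).2.1 he).fut x hx)
  rw [← map_smul] at hz hz1
  set z := rot c S w e ((a : ℂ) • x) with hzd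
  have hzn := (unit_vec hGR hz hz1).1
  have hρ' : ((‖s‖ : ℝ) : ℂ) ≠ 0 := ofReal_ne_zero.2 hρ.ne'
  have hrot : rot c S w s ((a : ℂ) • x) = rot c S w (‖s‖ : ℝ) z := by
    have := (r2 _ hρ').2.2.1 e he0
    rw [← hse] at this
    rw [this]
    rfl
  have hK0 : 0 ≤ K := (norm_nonneg _).trans hK.1
  have hax : ‖(a : ℂ) • x‖ ≤ 3 * K := by
    have h3 := (r2 _ (inv_ne_zero he0)).2.2.1 e he0
    rw [inv_mul_cancel₀ he0, r1] at h3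
    have h4 : (a : ℂ) • x = rot c S w e⁻¹ z := by
      change _ = (rot c S w e⁻¹ * rot c S w e) _
      rw [← h3]
      rfl
    rw [h4]
    refine (ContinuousLinearMap.le_opNorm _ _).trans ?_
    rw [hzn, mul_one]
    refine norm_add₃_le.trans ?_
    rw [norm_smul, norm_smul, inv_inv, norm_inv, he]
    linarith [hK.1, hK.2.1, hK.2.2]
  have hsum : P0 c S w + Pp c S w + Pm c S w = 1 := by
    unfold P0
    abel
  have hR : ‖rot c S w (‖s‖ : ℝ) - 1‖ ≤ δ / 2 :=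
    (Rg_sub hsum hK.1 hK.2.1 hη (abs_le.2 ⟨by linarith, by linarith⟩)).trans hηK
  obtain ⟨v1, v2, v3, v4⟩ := valR hGR hz hz1 hδ1 hδ ((hF (t₀ + s ^ n)).trans hε) hR
  have hball : ∀ t ∈ closedBall (t₀ + s ^ n) (1 / 12), AnalyticAt ℂ F t ∧ ‖F t - 1‖ ≤ ε := by
    intro t ht
    refine ⟨han t ?_, hF t⟩
    rw [mem_closedBall, dist_eq_norm] at ht
    have h5 := norm_add_le (t - (t₀ + s ^ n)) (s ^ n)
    rw [show t - (t₀ + s ^ n) + s ^ n = t - t₀ by ring] at h5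
    linarith
  have hc := cauchy (by norm_num) hball
  have hε0 : 0 ≤ ε := (norm_nonneg _).trans (hF 0)
  obtain ⟨c1, c2⟩ := core (F := F) (P0 c S w) (Pp c S w) (Pm c S w) (g := fun y => y)
    (h := fun y => t₀ + y ^ n) (s := s) ((a : ℂ) • x)
    (hball _ (mem_closedBall_self (by norm_num))).1 analyticAt_id (by fun_prop) hs
  refine ⟨a, ha, ?_⟩
  rintro p rfl
  rw [← hrot] at v1 v2 v3
  refine ⟨c1, v1, v2, c2.trans ?_⟩
  have hd : deriv (fun y : ℂ => t₀ + y ^ n) s = (n : ℂ) * s ^ (n - 1) :=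
    ((hasDerivAt_pow n s).const_add t₀).deriv
  have hRg : ‖Rg (P0 c S w) (Pp c S w) (Pm c S w) s ((a : ℂ) • x)‖ ≤ 2 := v3
  rw [hd, deriv_id'', norm_one, one_mul]
  set D := ‖(n : ℂ) * s ^ (n - 1)‖ with hD
  have hD0 : 0 ≤ D := norm_nonneg _
  have hn0 : (0 : ℝ) < n := by exact_mod_cast hn
  have hDn : ϱ * n ≤ D := by
    rw [hD, norm_mul, norm_pow, Complex.norm_natCast, mul_comm]
    exact mul_le_mul_of_nonneg_left
      (h1.trans (pow_le_pow_of_le_one hρ.le hs1 (Nat.sub_le _ _))) hn0.le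
  have b1 : D * ‖deriv F (t₀ + s ^ n)‖ * ‖Rg (P0 c S w) (Pp c S w) (Pm c S w) s ((a : ℂ) • x)‖ ≤
      D * (12 * ε) * 2 := by
    gcongr
    linarith
  have b2 : ‖Pm c S w‖ / ‖s‖ ^ 2 ≤ 4 * K := by
    rw [div_le_iff₀ (by positivity)]
    have : 1 / 4 ≤ ‖s‖ ^ 2 := by nlinarith
    nlinarith [hK.2.1]
  have b3 : ‖F (t₀ + s ^ n)‖ * ((‖Pp c S w‖ + ‖Pm c S w‖ / ‖s‖ ^ 2) * ‖(a : ℂ) • x‖) ≤
      2 * ((5 * K) * (3 * K)) := by
    gcongr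
    linarith [hK.1]
  have b4 : 30 * K ^ 2 ≤ 30 * K ^ 2 / ϱ / n * D := by
    rw [div_div, div_mul_eq_mul_div, le_div_iff₀ (by positivity)]
    gcongr
  nlinarith [mul_nonneg hε0 hD0]

theorem far (hGR : SGR) {K δ η ε T R : ℝ} {n μ : ℕ}
    (hn : 1 ≤ n) (hR : 0 ≤ R) (hK : ‖(Qp : EV ι)‖ ≤ K ∧ ‖(Qm : EV ι)‖ ≤ K)
    (hδ1 : δ ≤ 1) (hδ : Fintype.card ι * δ ^ 2 ≤ 1 / 4) (hη0 : 0 ≤ η) (hη : η ≤ 1 / 2)
    (hηK : 3 * η * K ≤ δ / 2) (hε : ε ≤ δ / 4) (hpow : T ^ μ < (1 + η) ^ n) {F : ℂ → EV ι}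
    (hF : ∀ t, ‖F t - 1‖ ≤ ε) (han : ∀ t, R + 1 < ‖t‖ → AnalyticAt ℂ F t)
    {x : V ι} (hx : x ∈ cone ι) {s : ℂ} (h1 : R + 2 < ‖s ^ n‖) (h2 : ‖s ^ n‖ ≤ T) :
    ∃ a : ℝ, 0 < a ∧ ∀ p : ℂ → ι → ℂ,
      (p = fun y => (F (y ^ n) (dg (y ^ μ) ((a : ℂ) • x))).2.2) →
      AnalyticAt ℂ p s ∧ 1 / 4 ≤ nsq (p s) ∧ nsq (p s) ≤ 4 ∧
        ‖deriv p s‖ ≤ (64 * ε + 8 * μ * K / n) * ‖(n : ℂ) * s ^ (n - 1)‖ := by
  have h1' := h1
  rw [norm_pow] at h1' h2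
  have hs1 : 1 ≤ ‖s‖ := by
    by_contra h
    have := pow_le_one₀ (n := n) (norm_nonneg s) (not_le.1 h).le
    linarith
  have hρ : 0 < ‖s‖ := by linarith
  have hs : s ≠ 0 := norm_pos_iff.1 hρ
  have hσ1 : 1 ≤ ‖s‖ ^ μ := one_le_pow₀ hs1
  have hσ2 : ‖s‖ ^ μ < 1 + η := by
    refine lt_of_pow_lt_pow_left₀ n (by linarith) (lt_of_le_of_lt ?_ hpow)
    rw [← pow_mul, mul_comm, pow_mul]
    exact pow_le_pow_left₀ (by positivity) h2 μ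
  have hsμ : s ^ μ ≠ 0 := pow_ne_zero _ hs
  obtain ⟨e, he, hse⟩ := polar hsμ
  rw [norm_pow] at hse
  have he0 : e ≠ 0 := by
    rintro rfl
    simp at he
  obtain ⟨r1, r2⟩ := hGR.dgp ι
  obtain ⟨a, ha, hy, hy1⟩ := normalise hGR hx
  have hz := ((r2 e he0).2.1 he).fut _ hy
  have hz1 : (dg e ((a : ℂ) • x)).1 = 1 := by rw [(hGR.blk ι _ e).2.2.2]; exact hy1
  set z : V ι := dg e ((a : ℂ) • x) with hzd
  have hρ' : ((‖s‖ ^ μ : ℝ) : ℂ) ≠ 0 := ofReal_ne_zero.2 (by positivity)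
  have hrot : dg (s ^ μ) ((a : ℂ) • x) = dg ((‖s‖ ^ μ : ℝ) : ℂ) z := by
    have := (r2 _ hρ').2.2 e he0
    rw [← hse] at this
    rw [this]
    rfl
  have hK0 : 0 ≤ K := (norm_nonneg _).trans hK.1
  have hax : ‖(a : ℂ) • x‖ = 1 := (unit_vec hGR hy hy1).1
  have hsum : (Q0 : EV ι) + Qp + Qm = 1 := by
    rw [← r1]
    simp [dg]
  have hR' : ‖(dg ((‖s‖ ^ μ : ℝ) : ℂ) : EV ι) - 1‖ ≤ δ / 2 :=
    (Rg_sub hsum hK.1 hK.2 hη (abs_le.2 ⟨by linarith, by linarith⟩)).trans hηK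
  obtain ⟨v1, v2, v3, v4⟩ := valR hGR hz hz1 hδ1 hδ ((hF (s ^ n)).trans hε) hR'
  have hball : ∀ t ∈ closedBall (s ^ n) (1 / 12), AnalyticAt ℂ F t ∧ ‖F t - 1‖ ≤ ε := by
    intro t ht
    refine ⟨han t ?_, hF t⟩
    rw [mem_closedBall, dist_eq_norm'] at ht
    have h5 := norm_add_le (s ^ n - t) t
    rw [sub_add_cancel] at h5
    linarith
  have hc := cauchy (by norm_num) hball
  have hε0 : 0 ≤ ε := (norm_nonneg _).trans (hF 0)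
  obtain ⟨c1, c2⟩ := core (F := F) Q0 Qp Qm (g := fun y => y ^ μ)
    (h := fun y => y ^ n) (s := s) ((a : ℂ) • x)
    (hball _ (mem_closedBall_self (by norm_num))).1 (by fun_prop) (by fun_prop) hsμ
  refine ⟨a, ha, ?_⟩
  rintro p rfl
  rw [← hrot] at v1 v2 v3
  refine ⟨c1, v1, v2, c2.trans ?_⟩
  have hRg : ‖Rg Q0 Qp Qm (s ^ μ) ((a : ℂ) • x)‖ ≤ 2 := v3
  rw [(hasDerivAt_pow n s).deriv, (hasDerivAt_pow μ s).deriv, hax, mul_one]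
  set D := ‖(n : ℂ) * s ^ (n - 1)‖ with hD
  have hD0 : 0 ≤ D := norm_nonneg _
  have hn0 : (0 : ℝ) < n := by exact_mod_cast hn
  have hDn : (n : ℝ) ≤ D := by
    rw [hD, norm_mul, norm_pow, Complex.norm_natCast]
    exact le_mul_of_one_le_right hn0.le (one_le_pow₀ hs1)
  have b1 : D * ‖deriv F (s ^ n)‖ * ‖Rg Q0 Qp Qm (s ^ μ) ((a : ℂ) • x)‖ ≤ D * (12 * ε) * 2 := by
    gcongr
    linarith
  have b2 : ‖(Qm : EV ι)‖ / ‖s ^ μ‖ ^ 2 ≤ K := by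
    rw [norm_pow]
    exact (div_le_self (norm_nonneg _) (one_le_pow₀ hσ1)).trans hK.2
  have b5 : ‖(μ : ℂ) * s ^ (μ - 1)‖ ≤ μ * 2 := by
    rw [norm_mul, norm_pow, Complex.norm_natCast]
    refine mul_le_mul_of_nonneg_left ?_ (Nat.cast_nonneg _)
    have := pow_le_pow_right₀ hs1 (Nat.sub_le μ 1)
    linarith
  have b3 : ‖F (s ^ n)‖ * (‖(μ : ℂ) * s ^ (μ - 1)‖ *
      (‖(Qp : EV ι)‖ + ‖(Qm : EV ι)‖ / ‖s ^ μ‖ ^ 2)) ≤ 2 * ((μ * 2) * (2 * K)) := by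
    gcongr
    linarith [hK.1]
  have b4 : 8 * μ * K ≤ 8 * μ * K / n * D := by
    rw [div_mul_eq_mul_div, le_div_iff₀ hn0]
    gcongr
  nlinarith [mul_nonneg hε0 hD0]

theorem hub (hGR : SGR) {δ ε : ℝ} (hδ1 : δ ≤ 1) (hδ : Fintype.card ι * δ ^ 2 ≤ 1 / 4)
    (hε : ε ≤ δ / 4) {x : V ι} (hx : x ∈ cone ι) {t₀ : ℂ} {Y : ℂ → EV ι}
    (hY : ∀ t ∈ ball t₀ (1 / 32), AnalyticAt ℂ Y t ∧ ‖Y t - 1‖ ≤ ε) {t : ℂ}
    (ht : t ∈ ball t₀ (1 / 64)) :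
    ∃ a : ℝ, 0 < a ∧ ∀ p : ℂ → ι → ℂ, (p = fun y => (Y y ((a : ℂ) • x)).2.2) →
      AnalyticAt ℂ p t ∧ 1 / 4 ≤ nsq (p t) ∧ nsq (p t) ≤ 4 ∧ ‖deriv p t‖ ≤ 64 * ε := by
  obtain ⟨a, ha, hy, hy1⟩ := normalise hGR hx
  have hball : ∀ z ∈ closedBall t (1 / 64), AnalyticAt ℂ Y z ∧ ‖Y z - 1‖ ≤ ε := by
    intro z hz
    refine hY z ?_
    rw [mem_closedBall] at hz
    rw [mem_ball] at ht ⊢
    linarith [dist_triangle z t t₀]
  obtain ⟨y1, y2⟩ := hball t (mem_closedBall_self (by norm_num))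
  have hδ0 : 0 ≤ δ := by linarith [norm_nonneg (Y t - 1)]
  obtain ⟨v1, v2, -, -⟩ := valR hGR hy hy1 (R := 1) hδ1 hδ (y2.trans hε)
    (by rw [sub_self, norm_zero]; linarith)
  have hc := cauchy (by norm_num) hball
  refine ⟨a, ha, ?_⟩
  rintro p rfl
  refine ⟨an_pr (an_app y1 analyticAt_const), v1, v2, ?_⟩
  have d : HasDerivAt (fun y => Y y ((a : ℂ) • x)) (deriv Y t ((a : ℂ) • x)) t := by
    simpa using y1.differentiableAt.hasDerivAt.clm_apply (hasDerivAt_const t ((a : ℂ) • x))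
  refine (deriv_pr d).trans ((ContinuousLinearMap.le_opNorm _ _).trans ?_)
  rw [(unit_vec hGR hy hy1).1]
  linarith

end DV

open DV in
theorem sdv (hGR : SGR) : SDV := by
  intro r m C ϱ T hϱ
  obtain ⟨K₀, hK₀, hb⟩ := hGR.bd (Fin r) (4 * r + 1)
  obtain ⟨K, hK1, hK2, hK3⟩ : ∃ K : ℝ, K₀ ≤ K ∧ ‖(Qp : EV (Fin r))‖ ≤ K ∧
      ‖(Qm : EV (Fin r))‖ ≤ K :=
    ⟨max K₀ (max ‖(Qp : EV (Fin r))‖ ‖(Qm : EV (Fin r))‖), le_max_left _ _,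
      (le_max_left _ _).trans (le_max_right _ _), (le_max_right _ _).trans (le_max_right _ _)⟩
  have hK : 0 ≤ K := hK₀.trans hK1
  obtain ⟨δ, hδ0, hδ1, hδ⟩ : ∃ δ : ℝ, 0 < δ ∧ δ ≤ 1 ∧ Fintype.card (Fin r) * δ ^ 2 ≤ 1 / 4 := by
    have hr : (0 : ℝ) ≤ r := Nat.cast_nonneg r
    refine ⟨1 / (2 * (r + 1)), by positivity, ?_, ?_⟩
    · rw [div_le_one (by positivity)]
      linarith
    · rw [Fintype.card_fin, div_pow, one_pow, mul_one_div, div_le_div_iff₀ (by positivity)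
        (by positivity)]
      nlinarith
  obtain ⟨η, hη0, hη, hηK⟩ : ∃ η : ℝ, 0 < η ∧ η ≤ 1 / 2 ∧ 3 * η * K ≤ δ / 2 := by
    refine ⟨δ / (6 * (K + 1)), by positivity, ?_, ?_⟩
    · rw [div_le_iff₀ (by positivity)]
      linarith
    · rw [show 3 * (δ / (6 * (K + 1))) * K = δ / 2 * (K / (K + 1)) by field_simp; ring]
      exact mul_le_of_le_one_right (by positivity) ((div_le_one (by positivity)).2 (by linarith))
  have E1 : ∀ᶠ n : ℕ in atTop, C / n ≤ δ / 4 :=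
    (tendsto_const_div_atTop_nhds_zero_nat C).eventually (ge_mem_nhds (by positivity))
  have E2 : ∀ᶠ n : ℕ in atTop, (1 - η) ^ n < ϱ :=
    (tendsto_pow_atTop_nhds_zero_of_lt_one (by linarith) (by linarith)).eventually
      (gt_mem_nhds hϱ)
  have E3 : ∀ᶠ n : ℕ in atTop, T ^ (4 * m) < (1 + η) ^ n :=
    (tendsto_pow_atTop_atTop_of_one_lt (by linarith)).eventually (eventually_gt_atTop _)
  have L1 : 0 ≤ 30 * K ^ 2 / ϱ := by positivity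
  have L2 : 0 ≤ 8 * ((4 * m : ℕ) : ℝ) * K := by positivity
  refine ⟨64 * C + (30 * K ^ 2 / ϱ + 8 * ((4 * m : ℕ) : ℝ) * K), ?_⟩
  filter_upwards [E1, E2, E3, eventually_ge_atTop 1] with n e1 e2 e3 hn
  intro c S om F Fi Fr hR hF x hx
  have hn0 : (0 : ℝ) < n := by exact_mod_cast hn
  have L3 := div_nonneg L1 hn0.le
  have L4 := div_nonneg L2 hn0.le
  have hC : (64 * C + (30 * K ^ 2 / ϱ + 8 * ((4 * m : ℕ) : ℝ) * K)) / n =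
      64 * (C / n) + (30 * K ^ 2 / ϱ / n + 8 * ((4 * m : ℕ) : ℝ) * K / n) := by ring
  rw [hC]
  refine ⟨fun j s h1 h2 => ?_, fun τ h1 h2 => ?_, fun t₀ Y hY t ht => ?_⟩
  · obtain ⟨k1, k2, k3⟩ := hb c S (om j) (hR.ax j) hR.hc
    obtain ⟨a, ha, h⟩ := cell hGR (hR.ax j) hn hϱ ⟨k1.trans hK1, k2.trans hK1, k3.trans hK1⟩
      hδ1 hδ hη hηK e1 e2 hF.near (fun t ht => (hF.an j t ht).1) hx h1 h2
    refine ⟨a, ha, fun p hp => ?_⟩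
    obtain ⟨p1, p2, p3, p4⟩ := h p hp
    exact ⟨p1, p2, p3, p4.trans (mul_le_mul_of_nonneg_right (by linarith) (norm_nonneg _))⟩
  · obtain ⟨a, ha, h⟩ := far hGR hn (Nat.cast_nonneg m) ⟨hK2, hK3⟩ hδ1 hδ hη0.le hη hηK e1 e3
      hF.near (fun t ht => (hF.ani t ht).1) hx h1 h2
    refine ⟨a, ha, fun p hp => ?_⟩
    obtain ⟨p1, p2, p3, p4⟩ := h p hp
    exact ⟨p1, p2, p3, p4.trans (mul_le_mul_of_nonneg_right (by linarith) (norm_nonneg _))⟩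
  · obtain ⟨a, ha, h⟩ := hub hGR hδ1 hδ e1 hx hY ht
    refine ⟨a, ha, fun p hp => ?_⟩
    obtain ⟨p1, p2, p3, p4⟩ := h p hp
    exact ⟨p1, p2, p3, p4.trans (by linarith)⟩

end Pool.Agent.MP_fcd29e_an.H50
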