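import Pool.Agent.MP_fcd29e_an.H60.POI
import Pool.Agent.MP_fcd29e_an.H31.Spec3

/-! The Poincaré inequality on the concave side with a real exponent. -/

set_option autoImplicit false

namespace Pool.Agent.MP_fcd29e_an.H50

open Pool.Agent.MP_fcd29e_an.H81 Pool.Agent.MP_fcd29e_an.H60 Pool.Agent.MP_fcd29e_an.H31
open MeasureTheory Complex Set Filter Topology Metric
open scoped ContDiff ComplexConjugate ENNReal NNReal

noncomputable section

variable {N : ℕ}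

/-- The weighted norm. -/
def IG (ρ : E N → ℝ) (κ : ℝ → ℝ) (g : E N → ℝ) (u : E N → ℂ) : ℝ :=
  ∫ z in Op ρ, κ (‖z‖ ^ 2) * g z * ‖u z‖ ^ 2

/-- The weighted norm with values in the extended reals. -/
def JG (ρ : E N → ℝ) (κ : ℝ → ℝ) (g : E N → ℝ) (u : E N → ℂ) : ℝ≥0∞ :=
  ∫⁻ z in Op ρ, ENNReal.ofReal (κ (‖z‖ ^ 2) * g z * ‖u z‖ ^ 2)

/-- Admissible weights. -/
structure Wg (κ : ℝ → ℝ) (g : E N → ℝ) : Prop where
  kap : Kap κ
  cont : ContinuousOn g (E0 N)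
  nn : ∀ z, 0 ≤ g z

variable {ρ : E N → ℝ} {κ : ℝ → ℝ} {g : E N → ℝ}

theorem intAG (L : Lv0) (ρ : E N → ℝ) (hκ : Wg κ g) {u : E N → ℂ} (hu : ContinuousOn u (E0 N)) :
    IntegrableOn (fun z => κ (‖z‖ ^ 2) * g z * ‖u z‖ ^ 2) (Op ρ) := by
  have := intK L hκ.kap (F := fun z => g z * ‖u z‖ ^ 2)
    (hκ.cont.mul (hu.norm.pow _))
  simp only [smul_eq_mul, ← mul_assoc] at this
  exact this.integrableOn

theorem gnnG (hκ : Wg κ g) (z : E N) : 0 ≤ κ (‖z‖ ^ 2) * g z :=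
  mul_nonneg (hκ.kap.nonneg _) (hκ.nn z)

theorem IA_nnG (hκ : Wg κ g) (u : E N → ℂ) : 0 ≤ IG ρ κ g u :=
  integral_nonneg fun z => mul_nonneg (gnnG hκ z) (by positivity)

theorem JA_eqG (L : Lv0) (ρ : E N → ℝ) (hκ : Wg κ g) {u : E N → ℂ} (hu : ContinuousOn u (E0 N)) :
    JG ρ κ g u = ENNReal.ofReal (IG ρ κ g u) :=
  (ofReal_integral_eq_lintegral_ofReal (intAG L ρ hκ hu)
    (ae_of_all _ fun z => mul_nonneg (gnnG hκ z) (by positivity))).symm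

theorem intBG (L : Lv0) (ρ : E N → ℝ) (hκ : Wg κ g) {u : E N → ℂ} (hu : ContinuousOn u (E0 N)) :
    IntegrableOn (fun z => ((κ (‖z‖ ^ 2) * g z : ℝ) : ℂ) * u z) (Op ρ) := by
  have := intK L hκ.kap (F := fun z => g z • u z) (hκ.cont.smul hu)
  simp only [smul_smul] at this
  simp only [Complex.real_smul] at this
  exact this.integrableOn

theorem orthoG (L : Lv0) (ρ : E N → ℝ) (hκ : Wg κ g) {u : E N → ℂ} (hu : ContinuousOn u (E0 N))
    (h0 : ∫ z in Op ρ, ((κ (‖z‖ ^ 2) * g z : ℝ) : ℂ) * u z = 0) (d : ℂ) :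
    IG ρ κ g u ≤ IG ρ κ g fun z => u z - d := by
  have h1 := (intBG L ρ hκ hu).const_mul (2 * conj d)
  have h2 : ∫ z in Op ρ,
      RCLike.re (2 * conj d * (((κ (‖z‖ ^ 2) * g z : ℝ) : ℂ) * u z)) = 0 := by
    rw [integral_re h1, integral_const_mul, h0, mul_zero, map_zero]
  have h3 := integral_sub (intAG L ρ hκ hu) h1.re
  rw [h2, sub_zero] at h3
  rw [IG, ← h3]
  refine integral_mono ((intAG L ρ hκ hu).sub h1.re)
    (intAG L ρ hκ (hu.sub continuousOn_const)) fun z => ?_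
  have h4 := gnnG hκ z
  simp only
  generalize κ (‖z‖ ^ 2) * g z = G at h4 ⊢
  rw [Complex.sq_norm, Complex.sq_norm]
  simp only [RCLike.re_to_complex, Complex.normSq_apply, mul_re, mul_im, sub_re, sub_im, conj_re,
    conj_im, ofReal_re, ofReal_im, re_ofNat, im_ofNat]
  nlinarith [mul_nonneg h4 (add_nonneg (mul_self_nonneg d.re) (mul_self_nonneg d.im))]

theorem bestG (L : Lv0) (ρ : E N → ℝ) (hκ : Wg κ g) {w : E N → ℂ} (hw : ContinuousOn w (E0 N)) :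
    ∃ c : ℂ, ∀ d : ℂ, IG ρ κ g (fun z => w z - c) ≤ IG ρ κ g fun z => w z - d := by
  have h1 := intBG L ρ hκ hw
  have h2 := intBG L ρ hκ (u := fun _ => 1) continuousOn_const
  simp only [mul_one] at h2
  obtain ⟨c, hc⟩ : ∃ c : ℂ,
      ∫ z in Op ρ, ((κ (‖z‖ ^ 2) * g z : ℝ) : ℂ) * (w z - c) = 0 := by
    by_cases h : ∫ z in Op ρ, ((κ (‖z‖ ^ 2) * g z : ℝ) : ℂ) = 0
    · refine ⟨0, ?_⟩
      rw [integral_complex_ofReal, ofReal_eq_zero,
        integral_eq_zero_iff_of_nonneg (gnnG hκ) (by simpa only [RCLike.re_to_complex, ofReal_re] using h2.re)] at h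
      refine integral_eq_zero_of_ae (h.mono fun z hz => ?_)
      simp only [Pi.zero_apply] at hz ⊢
      rw [hz, ofReal_zero, zero_mul]
    · refine ⟨(∫ z in Op ρ, ((κ (‖z‖ ^ 2) * g z : ℝ) : ℂ) * w z) /
        ∫ z in Op ρ, ((κ (‖z‖ ^ 2) * g z : ℝ) : ℂ), ?_⟩
      simp only [mul_sub]
      rw [integral_sub h1 (h2.mul_const _), integral_mul_const, mul_div_cancel₀ _ h, sub_self]
  refine ⟨c, fun d => ?_⟩
  have := orthoG L ρ hκ (u := fun z => w z - c) (hw.sub continuousOn_const) hc (d - c)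
  simpa only [sub_add_sub_cancel', sub_sub, add_sub_cancel] using this

theorem IA_mulG (L : Lv0) (hρ : Dom ρ) {u v : E N → ℂ} (t : ℝ)
    (h : ∀ z, z ≠ 0 → u z = (t : ℂ) * v z) : IG ρ κ g u = t ^ 2 * IG ρ κ g v := by
  rw [IG, IG, ← integral_const_mul]
  refine setIntegral_congr_fun (L.c1 N ρ hρ).2.1.measurableSet fun z hz => ?_
  simp only [h z hz.1, norm_mul, Complex.norm_real, Real.norm_eq_abs, mul_pow, sq_abs]
  ring

theorem seqG (L : Lv0) (hρ : Dom ρ) (hκ : Wg κ g) (j : ℕ)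
    (h : ¬ ∃ C : ℝ, 0 ≤ C ∧ ∀ w : E N → ℂ, ContDiffOn ℝ ∞ w (E0 N) → Hom (E0 N) (-j) 0 w →
      ∃ c : ℂ, (j ≠ 0 → c = 0) ∧ IG ρ κ g (fun z => w z - c) ≤ C * ∑ l, IG ρ κ g (dzb l w))
    (i : ℕ) : ∃ u : E N → ℂ, ContDiffOn ℝ ∞ u (E0 N) ∧ Hom (E0 N) (-j) 0 u ∧ IG ρ κ g u = 1 ∧
      (∀ l, IG ρ κ g (dzb l u) ≤ 1 / ((i : ℝ) + 1)) ∧
      ∀ c : ℂ, (j ≠ 0 → c = 0) → 1 ≤ IG ρ κ g fun z => u z - c := by
  push Not at h
  obtain ⟨w, hw, hh, hlt⟩ := h ((i : ℝ) + 1) (by positivity)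
  obtain ⟨c, hc, hb⟩ : ∃ c : ℂ, (j ≠ 0 → c = 0) ∧ ∀ d : ℂ, (j ≠ 0 → d = 0) →
      IG ρ κ g (fun z => w z - c) ≤ IG ρ κ g fun z => w z - d := by
    by_cases hj : j = 0
    · obtain ⟨c, hc⟩ := bestG L ρ hκ hw.continuousOn
      exact ⟨c, fun h => (h hj).elim, fun d _ => hc d⟩
    · exact ⟨0, fun _ => rfl, fun d hd => by rw [hd hj]⟩
  have h1 := hlt c hc
  have hB : 0 ≤ ∑ l, IG ρ κ g (dzb l w) := Finset.sum_nonneg fun l _ => IA_nnG hκ _
  set A := IG ρ κ g fun z => w z - c with hA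
  have hA0 : 0 < A := lt_of_le_of_lt (by positivity) h1
  have ht : 0 < √A := Real.sqrt_pos.2 hA0
  have ht2 : (√A)⁻¹ ^ 2 = A⁻¹ := by rw [inv_pow, Real.sq_sqrt hA0.le]
  refine ⟨fun z => (((√A)⁻¹ : ℝ) : ℂ) * (w z - c), contDiffOn_const.mul (hw.sub contDiffOn_const),
    fun a ha z hz => ?_, ?_, fun l => ?_, fun d hd => ?_⟩
  · have := hom_sub hh hc a ha z hz
    simp only at this ⊢
    rw [this]; ring
  · rw [IA_mulG L hρ (√A)⁻¹ (v := fun z => w z - c) fun _ _ => rfl, ht2, ← hA,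
      inv_mul_cancel₀ hA0.ne']
  · rw [IA_mulG L hρ (√A)⁻¹ (v := dzb l w) fun z hz => ?_, ht2]
    · have h2 : IG ρ κ g (dzb l w) ≤ ∑ l, IG ρ κ g (dzb l w) :=
        Finset.single_le_sum (f := fun l => IG ρ κ g (dzb l w)) (fun l _ => IA_nnG hκ _)
          (Finset.mem_univ l)
      rw [inv_mul_le_iff₀ hA0, mul_one_div, le_div_iff₀ (by positivity)]
      nlinarith
    · have hd : DifferentiableAt ℝ w z :=
        ContDiffAt.da (hw.contDiffAt (isOpen_E0.mem_nhds hz))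
      rw [dzb_const_mul _ _ (hd.sub_const c), dzb_sub _ hd (differentiableAt_const c)]
      simp [dzb]
  · rw [IA_mulG L hρ (√A)⁻¹ (v := fun z => w z - (c + √A * d)) fun z _ => ?_, ht2,
      le_inv_mul_iff₀ hA0, mul_one]
    · exact hb _ fun hj => by rw [hc hj, hd hj]; simp
    · have : ((√A : ℝ) : ℂ) ≠ 0 := ofReal_ne_zero.2 ht.ne'
      push_cast
      field_simp
      ring

/-- The inequality for a general weight. -/
theorem poiG (L : Lv0) (h1 : StmtW1) (h2 : StmtW2) (hl : StmtLIO) (hN : 3 ≤ N) {φ : E N → ℝ}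
    (hρ : Dom ρ) (hφ : PHI ρ φ) (hg : Wg κ g) (j k : ℕ) (hk : ∀ z ∈ Op ρ, ρ z ^ (2 * k) ≤ g z)
    {r₀ : ℝ} (hr₀ : 0 < r₀) (C : ℝ≥0)
    (hE : ∀ w, Temp ρ 0 w → Hom (Op ρ) (-j) 0 w → JG ρ κ g w ≤
      C * ((∑ l, JG ρ κ g (dzb l w)) +
        ∫⁻ z in {z | r₀ ≤ ρ z}, ENNReal.ofReal (κ (‖z‖ ^ 2) * ‖w z‖ ^ 2))) :
    ∃ C : ℝ, 0 ≤ C ∧ ∀ w : E N → ℂ, ContDiffOn ℝ ∞ w (E0 N) → Hom (E0 N) (-j) 0 w →
      ∃ c : ℂ, (j ≠ 0 → c = 0) ∧ IG ρ κ g (fun z => w z - c) ≤ C * ∑ l, IG ρ κ g (dzb l w) := by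
  have hκ := hg.kap
  by_contra h
  have hN1 : 1 ≤ N := by omega
  choose u hu hh n1 n2 n3 using seqG L hρ hg j h
  obtain ⟨-, -, hS1, hS2, -⟩ := (L.t3.2 N).1 κ hκ
  obtain ⟨-, hO, -, hC, hρm, -⟩ := L.c1 N ρ hρ
  have T := L.t1 N _ hO hC.1
  have hOE : Op ρ ⊆ E0 N := fun z hz => hz.1
  have hJG : ∀ v, JA ρ κ k v ≤ JG ρ κ g v := fun v =>
    setLIntegral_mono' hO.measurableSet fun z hz => ENNReal.ofReal_le_ofReal
      (mul_le_mul_of_nonneg_right (mul_le_mul_of_nonneg_left (hk z hz) (hκ.nonneg _))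
        (by positivity))
  have hJ : ∀ i, JA ρ κ k (u i) ≤ 1 := fun i => (hJG _).trans (by
    rw [JA_eqG L ρ hg (hu i).continuousOn, n1, ENNReal.ofReal_one])
  obtain ⟨W, s, hs, hW1, hW2, hW3, hW⟩ :=
    weak L hN1 hρ hκ (-j) u (fun i => (hu i).continuousOn) hh hJ
  have hd : ∀ i l, ContinuousOn (dzb l (u i)) (E0 N) := fun i l z hz =>
    (contDiffAt_dzb l ((hu i).contDiffAt (isOpen_E0.mem_nhds hz))).continuousAt.continuousWithinAt
  have hJ0 : ∀ l, Tendsto (fun i => JG ρ κ g (dzb l (u (s i)))) atTop (𝓝 0) := fun l => by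
    have h3 := ENNReal.tendsto_ofReal
      (tendsto_one_div_add_atTop_nhds_zero_nat.comp hs.tendsto_atTop)
    rw [ENNReal.ofReal_zero] at h3
    refine tendsto_of_tendsto_of_tendsto_of_le_of_le tendsto_const_nhds h3 (fun _ => zero_le)
      fun i => ?_
    simp only [JA_eqG L ρ hg (hd _ l)]
    exact ENNReal.ofReal_le_ofReal (n2 _ l)
  have hsm : ∀ K ⊆ Op ρ, IsCompact K → ∀ l,
      Tendsto (fun i => eLpNorm (dzb l (u (s i))) 2 (volume.restrict K)) atTop (𝓝 0) := by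
    intro K hK hKc l
    obtain ⟨C, hC'⟩ := loc2 (k := k) L hρ hκ (-j) (0 - 1) hKc hK
    have h3 := ENNReal.Tendsto.const_mul (a := C) (hJ0 l) (Or.inr ENNReal.coe_ne_top)
    rw [mul_zero] at h3
    rw [← tz]
    exact tendsto_of_tendsto_of_tendsto_of_le_of_le tendsto_const_nhds h3 (fun _ => zero_le)
      fun i => (hC' _ (((L.pf N).1 _ _ _ _ isOpen_E0 cone_E0 (hh _)).1 l).2).trans
        (mul_le_mul_right (hJG _) _)
  have hI : ∀ (f χ : E N → ℂ), Test (Op ρ) χ → ∫ z in Op ρ, f z * χ z = ∫ z, f z * χ z :=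
    fun f χ hχ => setIntegral_eq_integral_of_forall_compl_eq_zero
      fun z hz => by rw [test0 hχ hz, mul_zero]
  obtain ⟨V, hV, hVW⟩ := h1 N hN1 _ W hO hC.1 hW1 fun l ψ hψ => by
    obtain ⟨M, hM⟩ := hψ.1.continuous.bounded_above_of_compact_support hψ.2.1
    have h3 := (pair0 hψ.2.1 (fun i => ((hd (s i) l).mono (hψ.2.2.trans hOE)).aestronglyMeasurable
      (isClosed_tsupport ψ).measurableSet) (fun z hz => image_eq_zero_of_notMem_tsupport hz) hM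
      (hsm _ hψ.2.2 hψ.2.1 l)).neg
    rw [neg_zero] at h3
    refine tendsto_nhds_unique (hW _ ((T.2.2.2.1 ψ hψ).2.2.1 l).2) (h3.congr fun i => ?_)
    rw [← hI _ _ hψ]
    exact (((T.2.2.2.2.2.1 _ ((hu _).mono hOE)).2 l).1 ψ hψ).symm
  have T2 := (L.t2 N (-j) 0).1 _ hO hC
  obtain ⟨c, hc, hc0⟩ := hl N hN ρ φ hρ hφ j k V hV
    (T2.2.1 _ (T2.2.2.1 _ _ (T2.1 _ hW2) hVW) hV.1.continuousOn)
    ((T.1 _ hW3).2.2.2.2.2.1 _ (hVW.mono fun z hz h => by rw [hz h]))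
  have hK : IsCompact (Sh N ∩ {z | r₀ ≤ ρ z}) := hS1.of_isClosed_subset
    ((hρ.smooth.continuousOn.mono fun z hz h => hS2 (h ▸ hz)).preimage_isClosed_of_isClosed
      hS1.isClosed isClosed_Ici) inter_subset_left
  have h4 := strong L hN1 hO hK (fun z hz => ⟨fun h => hS2 (h ▸ hz.1), hr₀.trans_le hz.2⟩)
    (u := fun i => u (s i)) (c := c) (fun i => (hu _).mono hOE) (fun K hK hKc => by
      obtain ⟨C, hC'⟩ := loc2 (k := k) L hρ hκ (-j) 0 hKc hK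
      refine ⟨C, fun i => ?_⟩
      rw [← lsq]
      exact (hC' _ (hh _)).trans (by simpa using mul_le_mul_right (hJ _) (C : ℝ≥0∞))) hsm
    fun χ hχ => by
      have h3 := hW χ hχ
      have h5 : ∫ z in Op ρ, W z * χ z = c * ∫ z, χ z := by
        rw [← integral_const_mul, ← hI (fun _ => c) χ hχ]
        exact setIntegral_congr_ae hO.measurableSet
          (hVW.mono fun z hz h => by rw [hz h, hc z h])
      simpa only [h5, hI _ χ hχ] using h3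
  rw [← tz] at h4
  obtain ⟨B, hB⟩ := kapB (N := N) L hκ
  have h5 := ENNReal.Tendsto.const_mul (a := (C : ℝ≥0∞))
    ((tendsto_finsetSum Finset.univ fun l _ => hJ0 l).add
      (ENNReal.Tendsto.const_mul (a := ENNReal.ofReal B) h4 (Or.inr ENNReal.ofReal_ne_top)))
    (Or.inr ENNReal.coe_ne_top)
  simp only [Finset.sum_const_zero, mul_zero, add_zero] at h5
  refine absurd (ge_of_tendsto' (b := 1) h5 fun i => ?_) (by norm_num)
  have hv : ContDiffOn ℝ ∞ (fun z => u (s i) z - c) (E0 N) := (hu _).sub contDiffOn_const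
  have h6 := hE _ (((h2 N hN1).2.2 ρ hρ).2 _ hv) fun a ha z hz =>
    hom_sub (hh (s i)) hc0 a ha z hz.1
  have h7 : (1 : ℝ≥0∞) ≤ JG ρ κ g fun z => u (s i) z - c := by
    rw [JA_eqG L ρ hg hv.continuousOn]
    exact ENNReal.one_le_ofReal.2 (n3 _ c hc0)
  refine h7.trans (h6.trans (mul_le_mul_right (add_le_add (le_of_eq ?_) ?_) _))
  · refine Finset.sum_congr rfl fun l _ => setLIntegral_congr_fun hO.measurableSet fun z hz => ?_
    rw [dzb_sub l (ContDiffAt.da ((hu _).contDiffAt (isOpen_E0.mem_nhds hz.1)))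
      (differentiableAt_const c), dzb_const, sub_zero]
  · rw [← lintegral_const_mul' _ _ ENNReal.ofReal_ne_top,
      ← Measure.restrict_restrict hS1.measurableSet, ← lintegral_indicator hS1.measurableSet]
    refine lintegral_mono fun z => ?_
    by_cases hz : z ∈ Sh N
    · rw [indicator_of_mem hz, ENNReal.ofReal_mul (hκ.nonneg _)]
      gcongr
      exact (le_abs_self _).trans (hB z)
    · simp [kap0 hκ hz]


/-- Row POIs. -/
theorem pois (L : Lv0) (he : StmtESTs) (h1 : StmtW1) (h2 : StmtW2) (hl : StmtLIO) : StmtPOIs := by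
  intro N hN ρ φ hρ hφ κ hκ j s hs
  obtain ⟨-, hO, -, -, -, ⟨B, hB⟩, -⟩ := L.c1 N ρ hρ
  obtain ⟨r₀, hr₀, hE⟩ := he N ρ φ hρ hφ κ hκ
  obtain ⟨C, hE⟩ := hE s hs 0 j
  set k := ⌈s⌉₊ with hkdef
  have hks : s ≤ k := Nat.le_ceil s
  obtain ⟨D, hD1, hD⟩ : ∃ D : ℝ≥0, 1 ≤ D ∧ ∀ z ∈ Op ρ, ρ z ^ (2 * k) ≤ D * |ρ z| ^ (2 * s) := by
    refine ⟨1 + Real.toNNReal (B ^ (2 * (k : ℝ) - 2 * s)), le_self_add, fun z hz => ?_⟩
    have h0 : 0 < ρ z := hz.2
    have h3 : ρ z ^ (2 * k) = ρ z ^ (2 * (k : ℝ) - 2 * s) * ρ z ^ (2 * s) := by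
      rw [← Real.rpow_add h0, sub_add_cancel, ← Real.rpow_natCast]; push_cast; rfl
    rw [h3, abs_of_pos h0]
    refine mul_le_mul_of_nonneg_right ?_ (Real.rpow_nonneg h0.le _)
    have h4 : ρ z ^ (2 * (k : ℝ) - 2 * s) ≤ B ^ (2 * (k : ℝ) - 2 * s) :=
      Real.rpow_le_rpow h0.le ((le_abs_self _).trans (hB z)) (by linarith)
    have h5 := Real.le_coe_toNNReal (B ^ (2 * (k : ℝ) - 2 * s))
    push_cast
    linarith
  have hD0 : (0 : ℝ) < D := lt_of_lt_of_le one_pos (by exact_mod_cast hD1)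
  have hg : Wg κ fun z => (D : ℝ) * |ρ z| ^ (2 * s) :=
    ⟨hκ, continuousOn_const.mul (hρ.smooth.continuousOn.abs.rpow_const fun z _ =>
      Or.inr (by positivity)), fun z => by positivity⟩
  have hJ : ∀ u : E N → ℂ, JG ρ κ (fun z => (D : ℝ) * |ρ z| ^ (2 * s)) u =
      D * ∫⁻ z in Op ρ, ENNReal.ofReal (κ (‖z‖ ^ 2) * ρ z ^ (2 * s) * ‖u z‖ ^ 2) := fun u => by
    rw [JG, ← lintegral_const_mul' _ _ ENNReal.coe_ne_top]
    refine setLIntegral_congr_fun hO.measurableSet fun z hz => ?_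
    rw [abs_of_pos hz.2, ← ENNReal.ofReal_coe_nnreal, ← ENNReal.ofReal_mul hD0.le]
    congr 1
    ring
  have hI : ∀ u : E N → ℂ, IG ρ κ (fun z => (D : ℝ) * |ρ z| ^ (2 * s)) u =
      D * ∫ z in Op ρ, κ (‖z‖ ^ 2) * ρ z ^ (2 * s) * ‖u z‖ ^ 2 := fun u => by
    rw [IG, ← integral_const_mul]
    refine setIntegral_congr_fun hO.measurableSet fun z hz => ?_
    rw [abs_of_pos hz.2]
    ring
  obtain ⟨C', hC0, hC'⟩ := poiG L h1 h2 hl hN hρ hφ hg j k hD hr₀ (D * C) fun w hw hh => by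
    simp only [hJ]
    rw [ENNReal.coe_mul, mul_assoc]
    refine mul_le_mul_right ((hE w hw hh).trans (mul_le_mul_right (add_le_add_left
      (Finset.sum_le_sum fun l _ => ?_) _) _)) _
    exact le_mul_of_one_le_left zero_le (by exact_mod_cast hD1)
  refine ⟨C', hC0, fun w hw hh => ?_⟩
  obtain ⟨c, hc, h3⟩ := hC' w hw hh
  refine ⟨c, hc, le_of_mul_le_mul_left ?_ hD0⟩
  simp only [hI, ← Finset.mul_sum] at h3
  linarith

end

end Pool.Agent.MP_fcd29e_an.H50
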